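import Mathlib

/-!
# `T_{γ × γ}`: skew translations over an infinite compact power
-/

set_option autoImplicit false

open MeasureTheory Set

namespace Pool.Agent.Lib.MP_018e2a_an.KF

section fold

variable {E K : Type*} [AddCommGroup K]

/-- The skew translation `(e, s) ↦ (e, s + q e)`. -/
def tr (q : E → K) (p : E × K) : E × K := (p.1, p.2 + q p.1)

lemma tr_comp (q r : E → K) : tr q ∘ tr r = tr (fun e => r e + q e) := by
  funext p
  simp [tr, add_assoc]

lemma tr_comm (q r : E → K) : tr q ∘ tr r = tr r ∘ tr q := by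
  rw [tr_comp, tr_comp]
  congr 1
  funext e
  exact add_comm _ _

lemma foldr_tr (q : ℕ → E → K) (l : List ℕ) :
    List.foldr (fun (j : ℕ) (g : E × K → E × K) => tr (q j) ∘ g) (id : E × K → E × K) l =
      tr (fun e => (l.map (fun j => q j e)).sum) := by
  induction l with
  | nil => funext p; simp [tr]
  | cons a l ih =>
    rw [List.foldr_cons, ih, tr_comp]
    congr 1
    funext e
    rw [List.map_cons, List.sum_cons, add_comm]

lemma foldr_foldr (q : ℕ → ℕ → E → K) (γ : Finset ℕ) :
    List.foldr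
      (fun (i : ℕ) (f : E × K → E × K) =>
        (List.foldr (fun (j : ℕ) (g : E × K → E × K) => tr (q i j) ∘ g)
          (id : E × K → E × K) γ.toList) ∘ f)
      (id : E × K → E × K) γ.toList = tr (fun e => ∑ i ∈ γ, ∑ j ∈ γ, q i j e) := by
  have h : ∀ i, List.foldr (fun (j : ℕ) (g : E × K → E × K) => tr (q i j) ∘ g)
      (id : E × K → E × K) γ.toList = tr (fun e => ∑ j ∈ γ, q i j e) := by
    intro i
    rw [foldr_tr]
    congr 1
    funext e
    rw [Finset.sum_map_toList]
  simp_rw [h]
  rw [foldr_tr (fun i e => ∑ j ∈ γ, q i j e)]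
  congr 1
  funext e
  rw [Finset.sum_map_toList]

end fold

section sys

variable {W K : Type} [AddCommGroup W] [TopologicalSpace W] [IsTopologicalAddGroup W]
  [CompactSpace W] [SecondCountableTopology W] [MeasurableSpace W] [BorelSpace W]
  [AddCommGroup K] [TopologicalSpace K] [IsTopologicalAddGroup K]
  [CompactSpace K] [SecondCountableTopology K] [MeasurableSpace K] [BorelSpace K]

/-- The Haar probability measure of the compact group `ℕ → W`. -/
noncomputable def muE (W : Type) [AddCommGroup W] [TopologicalSpace W] [IsTopologicalAddGroup W]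
    [CompactSpace W] [SecondCountableTopology W] [MeasurableSpace W] [BorelSpace W] :
    Measure (ℕ → W) :=
  Measure.addHaarMeasure (⊤ : TopologicalSpace.PositiveCompacts (ℕ → W))

instance : (muE W).IsAddHaarMeasure := by
  unfold muE; infer_instance

instance : IsProbabilityMeasure (muE W) := by
  constructor
  have := Measure.addHaarMeasure_self (K₀ := (⊤ : TopologicalSpace.PositiveCompacts (ℕ → W)))
  simpa [muE] using this

/-- The sum over `γ` as a homomorphism. -/
def sumHom (W : Type) [AddCommGroup W] (γ : Finset ℕ) : (ℕ → W) →+ W where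
  toFun e := ∑ i ∈ γ, e i
  map_zero' := by simp
  map_add' e f := by simp [Finset.sum_add_distrib]

lemma sumHom_mp (μW : Measure W) [IsProbabilityMeasure μW] [μW.IsAddHaarMeasure]
    (γ : Finset ℕ) (hγ : γ.Nonempty) : MeasurePreserving (sumHom W γ) (muE W) μW := by
  apply AddMonoidHom.measurePreserving
  · show Continuous (fun e : ℕ → W => ∑ i ∈ γ, e i)
    fun_prop
  · intro w
    obtain ⟨i0, hi0⟩ := hγ
    refine ⟨Pi.single i0 w, ?_⟩
    show ∑ i ∈ γ, (Pi.single i0 w : ℕ → W) i = w
    rw [Finset.sum_eq_single i0]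
    · simp
    · intro b _ hb
      simp [hb]
    · intro h
      exact absurd hi0 h
  · simp

lemma tr_mp (μK : Measure K) [IsProbabilityMeasure μK] [μK.IsAddHaarMeasure]
    (q : (ℕ → W) → K) (hq : Measurable q) :
    MeasurePreserving (tr q) ((muE W).prod μK) ((muE W).prod μK) := by
  refine (MeasurePreserving.id (muE W)).skew_product (g := fun e s => s + q e) ?_ ?_
  · exact measurable_snd.add (hq.comp measurable_fst)
  · exact ae_of_all _ fun e => map_add_right_eq_self μK (q e)

lemma ret (μW : Measure W) [IsProbabilityMeasure μW] [μW.IsAddHaarMeasure]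
    (μK : Measure K) [IsProbabilityMeasure μK] [μK.IsAddHaarMeasure]
    (Φ : W → K) (hΦ : Measurable Φ) (q : (ℕ → W) → K) (γ : Finset ℕ) (hγ : γ.Nonempty)
    (hq : ∀ e, q e = Φ (∑ i ∈ γ, e i)) (B : Set K) (hB : MeasurableSet B) :
    ((muE W).prod μK) ((univ ×ˢ B) ∩ (tr q) ⁻¹' (univ ×ˢ B)) =
      (μW.prod μK) {p | p.2 ∈ B ∧ p.2 + Φ p.1 ∈ B} := by
  have h1 : MeasurePreserving (Prod.map (sumHom W γ) (id : K → K)) ((muE W).prod μK)
      (μW.prod μK) := (sumHom_mp μW γ hγ).prod (MeasurePreserving.id μK)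
  have h2 : MeasurableSet {p : W × K | p.2 ∈ B ∧ p.2 + Φ p.1 ∈ B} := by
    apply MeasurableSet.inter
    · exact measurable_snd hB
    · exact (measurable_snd.add (hΦ.comp measurable_fst)) hB
  rw [← h1.measure_preimage h2.nullMeasurableSet]
  congr 1
  ext p
  simp [tr, hq, sumHom]

/-- Returns of a complement. -/
lemma compl_ret {X : Type} [MeasurableSpace X] (μ : Measure X) [IsProbabilityMeasure μ]
    (S : X → X) (hS : MeasurePreserving S μ μ) (A : Set X) (hA : MeasurableSet A) :
    μ.real (Aᶜ ∩ S ⁻¹' Aᶜ) = 1 - 2 * μ.real A + μ.real (A ∩ S ⁻¹' A) := by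
  have h1 : Aᶜ ∩ S ⁻¹' Aᶜ = (A ∪ S ⁻¹' A)ᶜ := by
    rw [preimage_compl, compl_union]
  have h2 : μ.real (S ⁻¹' A) = μ.real A := by
    rw [Measure.real, hS.measure_preimage hA.nullMeasurableSet, Measure.real]
  have h3 := measureReal_union_add_inter (μ := μ) (s := A) (hS.measurable hA)
  rw [h1, probReal_compl_eq_one_sub (hA.union (hS.measurable hA))]
  linarith

end sys

end Pool.Agent.Lib.MP_018e2a_an.KF
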