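import Mathlib
import Pool.Agent.Lib.MP_018e2a_an.KF.Core

/-!
# `T_{γ × γ}`: anisotropic forms give small returns
-/

set_option autoImplicit false

open MeasureTheory Set

namespace Pool.Agent.Lib.MP_018e2a_an.KF

section form

variable {V F : Type} [AddCommGroup V] [AddCommGroup F]

/-- The cocycle. -/
def q (b : V →+ V →+ F) (i j : ℕ) (e : ℕ → V × UnitAddCircle) : F × UnitAddCircle :=
  (b (e i).1 (e j).1, if i = j then (e i).2 else 0)

/-- The quadratic map. -/
def Phi (b : V →+ V →+ F) (w : V × UnitAddCircle) : F × UnitAddCircle := (b w.1 w.1, w.2)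

lemma q_sum (b : V →+ V →+ F) (γ : Finset ℕ) (e : ℕ → V × UnitAddCircle) :
    ∑ i ∈ γ, ∑ j ∈ γ, q b i j e = Phi b (∑ i ∈ γ, e i) := by
  apply Prod.ext
  · rw [Prod.fst_sum]
    simp_rw [Prod.fst_sum]
    simp only [q, Phi, Prod.fst_sum, map_sum, AddMonoidHom.finsetSum_apply]
    rw [Finset.sum_comm]
  · rw [Prod.snd_sum]
    simp_rw [Prod.snd_sum]
    simp [q, Phi, Prod.snd_sum]

variable [Finite V] [MeasurableSpace V] [MeasurableSingletonClass V] [MeasurableSpace F]

lemma measurable_Phi (b : V →+ V →+ F) : Measurable (Phi b) := by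
  unfold Phi
  exact ((measurable_of_finite (fun v : V => b v v)).comp measurable_fst).prodMk measurable_snd

lemma measurable_q (b : V →+ V →+ F) (i j : ℕ) : Measurable (q b i j) := by
  have h1 : Measurable (fun e : ℕ → V × UnitAddCircle => ((e i).1, (e j).1)) :=
    (measurable_fst.comp (measurable_pi_apply i)).prodMk
      (measurable_fst.comp (measurable_pi_apply j))
  have h2 : Measurable (fun p : V × V => b p.1 p.2) := measurable_of_finite _
  refine (h2.comp h1).prodMk ?_
  by_cases hij : i = j
  · simp only [hij, if_true]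
    exact measurable_snd.comp (measurable_pi_apply j)
  · simp only [hij, if_false]
    exact measurable_const

end form

section fin

variable (G : Type) [AddCommGroup G] [TopologicalSpace G] [IsTopologicalAddGroup G]
  [CompactSpace G] [MeasurableSpace G] [BorelSpace G]

/-- Haar probability measure. -/
noncomputable def haar1 : Measure G :=
  Measure.addHaarMeasure (⊤ : TopologicalSpace.PositiveCompacts G)

instance : (haar1 G).IsAddHaarMeasure := by
  unfold haar1; infer_instance

instance : IsProbabilityMeasure (haar1 G) := by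
  constructor
  have := Measure.addHaarMeasure_self (K₀ := (⊤ : TopologicalSpace.PositiveCompacts G))
  simpa [haar1] using this

lemma haar1_zero [Fintype G] [MeasurableSingletonClass G] :
    (Fintype.card G : ENNReal) * haar1 G {0} = 1 := by
  have h1 : ∑ g ∈ (Finset.univ : Finset G), haar1 G {g} = haar1 G ((Finset.univ : Finset G) : Set G) :=
    sum_measure_singleton
  rw [Finset.coe_univ, measure_univ] at h1
  rw [← h1]
  rw [Finset.sum_congr rfl (fun g _ => Measure.addHaar_singleton (haar1 G) g)]
  simp

lemma haar1_zero_real [Fintype G] [MeasurableSingletonClass G] :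
    (haar1 G).real {0} = 1 / (Fintype.card G : ℝ) := by
  have h1 := congrArg ENNReal.toReal (haar1_zero G)
  rw [ENNReal.toReal_mul, ENNReal.toReal_natCast, ENNReal.toReal_one] at h1
  have h2 : (Fintype.card G : ℝ) ≠ 0 := by
    intro h
    rw [h, zero_mul] at h1
    exact zero_ne_one h1
  rw [Measure.real, eq_div_iff h2, mul_comm, h1]

end fin

section ret

/-- The set `{0} × I`. -/
def Bset (F : Type) [AddCommGroup F] (I : Set UnitAddCircle) : Set (F × UnitAddCircle) := {0} ×ˢ I

lemma circle_ret (I : Set UnitAddCircle) (hI : MeasurableSet I) :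
    ∫⁻ m : UnitAddCircle, volume {u : UnitAddCircle | u ∈ I ∧ u + m ∈ I} = volume I * volume I := by
  have hS : MeasurableSet {p : UnitAddCircle × UnitAddCircle | p.2 ∈ I ∧ p.2 + p.1 ∈ I} :=
    (measurable_snd hI).inter ((measurable_snd.add measurable_fst) hI)
  have h1 := Measure.prod_apply (μ := (volume : Measure UnitAddCircle))
    (ν := (volume : Measure UnitAddCircle)) hS
  have h2 := Measure.prod_apply_symm (μ := (volume : Measure UnitAddCircle))
    (ν := (volume : Measure UnitAddCircle)) hS
  have h3 : ∀ m : UnitAddCircle, Prod.mk m ⁻¹' {p : UnitAddCircle × UnitAddCircle |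
      p.2 ∈ I ∧ p.2 + p.1 ∈ I} = {u : UnitAddCircle | u ∈ I ∧ u + m ∈ I} := fun m => rfl
  simp_rw [h3] at h1
  rw [← h1, h2]
  have h4 : ∀ u : UnitAddCircle, volume ((fun x => (x, u)) ⁻¹' {p : UnitAddCircle × UnitAddCircle |
      p.2 ∈ I ∧ p.2 + p.1 ∈ I}) = I.indicator (fun _ => volume I) u := by
    intro u
    by_cases hu : u ∈ I
    · rw [indicator_of_mem hu]
      have : ((fun x => (x, u)) ⁻¹' {p : UnitAddCircle × UnitAddCircle |
          p.2 ∈ I ∧ p.2 + p.1 ∈ I}) = (fun x => u + x) ⁻¹' I := by
        ext x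
        simp [hu]
      rw [this, measure_preimage_add]
    · rw [indicator_of_notMem hu]
      have : ((fun x => (x, u)) ⁻¹' {p : UnitAddCircle × UnitAddCircle |
          p.2 ∈ I ∧ p.2 + p.1 ∈ I}) = ∅ := by
        ext x
        simp [hu]
      rw [this, measure_empty]
  simp_rw [h4]
  rw [lintegral_indicator hI]
  simp

variable {V F : Type} [AddCommGroup V] [AddCommGroup F] [Finite V] [Finite F]
  [TopologicalSpace V] [DiscreteTopology V] [TopologicalSpace F] [DiscreteTopology F]
  [MeasurableSpace V] [BorelSpace V] [MeasurableSpace F] [BorelSpace F]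

lemma prod_ret (b : V →+ V →+ F) (hb : ∀ v, b v v = 0 → v = 0)
    (I : Set UnitAddCircle) (hI : MeasurableSet I) :
    (((haar1 V).prod (volume : Measure UnitAddCircle)).prod
      ((haar1 F).prod (volume : Measure UnitAddCircle)))
      {p | p.2 ∈ Bset F I ∧ p.2 + Phi b p.1 ∈ Bset F I} =
    haar1 V {0} * haar1 F {0} * (volume I * volume I) := by
  have hB : MeasurableSet (Bset F I) := (measurableSet_singleton _).prod hI
  have hS : MeasurableSet {p : (V × UnitAddCircle) × (F × UnitAddCircle) |
      p.2 ∈ Bset F I ∧ p.2 + Phi b p.1 ∈ Bset F I} :=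
    (measurable_snd hB).inter ((measurable_snd.add ((measurable_Phi b).comp measurable_fst)) hB)
  rw [Measure.prod_apply hS]
  have h1 : ∀ w : V × UnitAddCircle, ((haar1 F).prod (volume : Measure UnitAddCircle))
      (Prod.mk w ⁻¹' {p : (V × UnitAddCircle) × (F × UnitAddCircle) |
        p.2 ∈ Bset F I ∧ p.2 + Phi b p.1 ∈ Bset F I}) =
      (({0} : Set V).indicator (fun _ => haar1 F {0}) w.1) *
        volume {u : UnitAddCircle | u ∈ I ∧ u + w.2 ∈ I} := by
    intro w
    by_cases hw : w.1 = 0
    · have h2 : (Prod.mk w ⁻¹' {p : (V × UnitAddCircle) × (F × UnitAddCircle) |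
        p.2 ∈ Bset F I ∧ p.2 + Phi b p.1 ∈ Bset F I}) =
          {0} ×ˢ {u : UnitAddCircle | u ∈ I ∧ u + w.2 ∈ I} := by
        ext ⟨x, u⟩
        have h3 : b w.1 w.1 = 0 := by rw [hw, map_zero]
        simp only [mem_preimage, mem_ofPred_eq, Bset, mem_prod, mem_singleton_iff, Phi,
          Prod.mk_add_mk, h3, add_zero]
        tauto
      rw [h2, Measure.prod_prod, indicator_of_mem (by simpa using hw)]
    · have h2 : (Prod.mk w ⁻¹' {p : (V × UnitAddCircle) × (F × UnitAddCircle) |
        p.2 ∈ Bset F I ∧ p.2 + Phi b p.1 ∈ Bset F I}) = ∅ := by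
        ext ⟨x, u⟩
        have h3 : b w.1 w.1 ≠ 0 := fun h => hw (hb _ h)
        simp only [mem_preimage, mem_ofPred_eq, Bset, mem_prod, mem_singleton_iff, Phi,
          Prod.mk_add_mk, mem_empty_iff_false, iff_false, not_and]
        rintro ⟨rfl, _⟩ h4
        rw [zero_add] at h4
        exact absurd h4 h3
      rw [h2, measure_empty, indicator_of_notMem (by simpa using hw), zero_mul]
  simp_rw [h1]
  have hg : Measurable (fun m : UnitAddCircle =>
      volume {u : UnitAddCircle | u ∈ I ∧ u + m ∈ I}) := by
    have hS' : MeasurableSet {p : UnitAddCircle × UnitAddCircle | p.2 ∈ I ∧ p.2 + p.1 ∈ I} :=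
      (measurable_snd hI).inter ((measurable_snd.add measurable_fst) hI)
    exact measurable_measure_prodMk_left hS'
  rw [lintegral_prod_mul ((measurable_const.indicator (measurableSet_singleton _)).aemeasurable)
    hg.aemeasurable, circle_ret I hI, lintegral_indicator (measurableSet_singleton _)]
  simp [mul_comm]

end ret

end Pool.Agent.Lib.MP_018e2a_an.KF
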