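import Mathlib

/-!
# Hermitian `3 × 3` matrices over the field with four elements: 120 matrices of the 512 without
rank one differences
-/

set_option autoImplicit false

namespace Pool.Agent.Lib.MP_018e2a_an.KF

/-- Bit strings of length `n`, coded as naturals, with addition modulo 2. -/
structure XG (n : ℕ) where
  val : ℕ
  lt : val < 2 ^ n
  deriving DecidableEq

namespace XG

variable {n : ℕ}

@[ext] theorem ext' {x y : XG n} (h : x.val = y.val) : x = y := by
  cases x; cases y; simp only at h; subst h; rfl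

instance : Zero (XG n) := ⟨⟨0, Nat.two_pow_pos n⟩⟩
instance : Add (XG n) := ⟨fun x y => ⟨x.val ^^^ y.val, Nat.xor_lt_two_pow x.lt y.lt⟩⟩
instance : Neg (XG n) := ⟨fun x => x⟩

@[simp] theorem zero_val : (0 : XG n).val = 0 := rfl
@[simp] theorem add_val (x y : XG n) : (x + y).val = x.val ^^^ y.val := rfl
@[simp] theorem neg_val (x : XG n) : (-x).val = x.val := rfl

instance : AddCommGroup (XG n) where
  add_assoc x y z := ext' (by simp [Nat.xor_assoc])
  zero_add x := ext' (by simp)
  add_zero x := ext' (by simp)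
  neg_add_cancel x := ext' (by simp)
  add_comm x y := ext' (by simp [Nat.xor_comm])
  nsmul := nsmulRec
  zsmul := zsmulRec

theorem add_self (x : XG n) : x + x = 0 := ext' (by simp)

/-- The coding. -/
def equiv (n : ℕ) : XG n ≃ Fin (2 ^ n) where
  toFun x := ⟨x.val, x.lt⟩
  invFun x := ⟨x.1, x.2⟩
  left_inv _ := rfl
  right_inv _ := rfl

instance : Fintype (XG n) := Fintype.ofEquiv _ (equiv n).symm

theorem card : Fintype.card (XG n) = 2 ^ n := by
  rw [Fintype.card_congr (equiv n), Fintype.card_fin]

/-- `v ↦ c` if the bit `i` of `v` is 1, and `0` otherwise. -/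
def ev {G : Type} [AddCommGroup G] (i : ℕ) (c : G) (hc : c + c = 0) : XG n →+ G :=
  AddMonoidHom.mk' (fun v => if v.val.testBit i then c else 0) (by
    intro v w
    simp only [add_val, Nat.testBit_xor]
    cases v.val.testBit i <;> cases w.val.testBit i <;> simp [hc])

end XG

/-- Homomorphisms into bit strings have order 2. -/
theorem hom_add_self {m n : ℕ} (f : XG m →+ XG n) : f + f = 0 := by
  ext v
  simp [XG.add_self]

/-- One row of the form. -/
def row (a0 a1 a2 a3 a4 a5 : XG 9) : XG 6 →+ XG 9 :=
  XG.ev 0 a0 (XG.add_self _) + XG.ev 1 a1 (XG.add_self _) + XG.ev 2 a2 (XG.add_self _) +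
    XG.ev 3 a3 (XG.add_self _) + XG.ev 4 a4 (XG.add_self _) + XG.ev 5 a5 (XG.add_self _)

/-- Constants of length 9. -/
def C (a : ℕ) : XG 9 := ⟨a % 512, Nat.mod_lt a (Nat.succ_pos 511)⟩

/-- The form `(v, w) ↦ v w*` on `F_4 ^ 3` with values in the Hermitian matrices: three diagonal
bits and three entries above the diagonal. -/
def form : XG 6 →+ XG 6 →+ XG 9 :=
  XG.ev 0 (row (C 1) (C 1) (C 8) (C 24) (C 32) (C 96)) (hom_add_self _) +
  XG.ev 1 (row (C 0) (C 1) (C 16) (C 8) (C 64) (C 32)) (hom_add_self _) +
  XG.ev 2 (row (C 0) (C 0) (C 2) (C 2) (C 128) (C 384)) (hom_add_self _) +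
  XG.ev 3 (row (C 0) (C 0) (C 0) (C 2) (C 256) (C 128)) (hom_add_self _) +
  XG.ev 4 (row (C 0) (C 0) (C 0) (C 0) (C 4) (C 4)) (hom_add_self _) +
  XG.ev 5 (row (C 0) (C 0) (C 0) (C 0) (C 0) (C 4)) (hom_add_self _)

/-- The characteristic number of the set. -/
def mask : ℕ := 0x2020209218621810269029202020209020202098621218102020209690202922828161824242429281628181628281802026992212186810202020902020209

/-- The rank one matrices. -/
def rk : List ℕ := [1, 2, 4, 11, 19, 27, 37, 69, 101, 134, 175, 215, 255, 262, 319, 335, 375, 390,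
  439, 479, 495]

theorem form_mem : ∀ v : XG 6, v ≠ 0 → (form v v).val ∈ rk := by
  decide +kernel

theorem mask_free : ∀ a ∈ List.range 512, mask.testBit a = true →
    ∀ d ∈ rk, mask.testBit (a ^^^ d) = false := by
  decide +kernel

/-- The set of 120 matrices. -/
def bset : Finset (XG 9) := Finset.univ.filter (fun x => mask.testBit x.val = true)

theorem bset_card : bset.card = 120 := by
  decide +kernel

theorem bset_free (v : XG 6) (hv : v ≠ 0) (x : XG 9) (hx : x ∈ bset) :
    x + form v v ∉ bset := by
  intro h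
  have h1 : mask.testBit x.val = true := (Finset.mem_filter.1 hx).2
  have h2 : mask.testBit (x + form v v).val = true := (Finset.mem_filter.1 h).2
  have h3 := mask_free x.val (List.mem_range.2 x.lt) h1 _ (form_mem v hv)
  rw [XG.add_val, h3] at h2
  exact absurd h2 (by decide)

end Pool.Agent.Lib.MP_018e2a_an.KF
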