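import Mathlib
import Pool.Agent.Lib.MP_018e2a_an.KF.Example

/-!
# `T_{γ × γ}`: small returns for all `γ`
-/

set_option autoImplicit false

open MeasureTheory Set

namespace Pool.Agent.Lib.MP_018e2a_an.KF

/-- There is an anisotropic biadditive form from a group with `n ^ 2` elements to one with `n`. -/
def Aniso (n : ℕ) : Prop :=
  ∃ (V F : Type) (_ : AddCommGroup V) (_ : AddCommGroup F) (_ : Fintype V) (_ : Fintype F)
    (b : V →+ V →+ F), Fintype.card F = n ∧ Fintype.card V = n ^ 2 ∧ ∀ v, b v v = 0 → v = 0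

lemma aniso_one : Aniso 1 :=
  ⟨PUnit, PUnit, inferInstance, inferInstance, inferInstance, inferInstance, 0, by simp, by simp,
    fun _ _ => rfl⟩

lemma aniso_mul {m n : ℕ} (hm : Aniso m) (hn : Aniso n) : Aniso (m * n) := by
  obtain ⟨V, F, _, _, _, _, b, h1, h2, h3⟩ := hm
  obtain ⟨V', F', _, _, _, _, b', h1', h2', h3'⟩ := hn
  refine ⟨V × V', F × F', inferInstance, inferInstance, inferInstance, inferInstance,
    AddMonoidHom.mk' (fun v => AddMonoidHom.mk' (fun w => (b v.1 w.1, b' v.2 w.2))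
      (by intro x y; simp)) (by intro x y; ext w <;> simp), ?_, ?_, ?_⟩
  · rw [Fintype.card_prod, h1, h1']
  · rw [Fintype.card_prod, h2, h2', mul_pow]
  · rintro ⟨v, v'⟩ h
    have h4 : (b v v, b' v' v') = ((0 : F), (0 : F')) := h
    rw [Prod.mk.injEq] at h4
    rw [h3 v h4.1, h3' v' h4.2]
    rfl

lemma form_two : ∀ x y : ZMod 2, x * x + 1 * (x * y) + 1 * (y * y) = 0 → x = 0 ∧ y = 0 := by
  decide

lemma form_prime (p : ℕ) [hp : Fact p.Prime] :
    ∃ s t : ZMod p, ∀ x y : ZMod p, x * x + s * (x * y) + t * (y * y) = 0 → x = 0 ∧ y = 0 := by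
  by_cases h2 : p = 2
  · subst h2
    exact ⟨1, 1, form_two⟩
  · have hchar : ringChar (ZMod p) ≠ 2 := by
      rw [ZMod.ringChar_zmod_n]
      exact h2
    obtain ⟨d, hd⟩ := FiniteField.exists_nonsquare hchar
    refine ⟨0, -d, fun x y h => ?_⟩
    have h3 : y = 0 := by
      by_contra hy
      apply hd
      refine ⟨x / y, ?_⟩
      field_simp
      linear_combination -h
    subst h3
    refine ⟨?_, rfl⟩
    simpa using h

lemma aniso_prime (p : ℕ) (hp : p.Prime) : Aniso p := by
  have : Fact p.Prime := ⟨hp⟩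
  obtain ⟨s, t, hst⟩ := form_prime p
  refine ⟨ZMod p × ZMod p, ZMod p, inferInstance, inferInstance, inferInstance, inferInstance,
    AddMonoidHom.mk' (fun v => AddMonoidHom.mk'
      (fun w => v.1 * w.1 + s * (v.1 * w.2) + t * (v.2 * w.2))
      (by intro x y; simp only [Prod.fst_add, Prod.snd_add]; ring))
      (by intro x y; ext w <;> (simp; ring)), ?_, ?_, ?_⟩
  · exact ZMod.card p
  · rw [Fintype.card_prod, ZMod.card, sq]
  · rintro ⟨x, y⟩ h
    have h4 : x * x + s * (x * y) + t * (y * y) = 0 := h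
    obtain ⟨h5, h6⟩ := hst x y h4
    rw [h5, h6]
    rfl

lemma aniso (n : ℕ) (hn : 0 < n) : Aniso n := by
  induction n using Nat.recOnMul with
  | zero => exact absurd hn (lt_irrefl 0)
  | one => exact aniso_one
  | prime p hp => exact aniso_prime p hp
  | mul a b ha hb =>
    have h1 : 0 < a := Nat.pos_of_mul_pos_right hn
    have h2 : 0 < b := Nat.pos_of_mul_pos_left hn
    exact aniso_mul (ha h1) (hb h2)

instance : IsProbabilityMeasure (volume : Measure UnitAddCircle) := ⟨UnitAddCircle.measure_univ⟩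

section fin2

variable {V F : Type} [AddCommGroup V] [AddCommGroup F] [Fintype V] [Fintype F]
  [TopologicalSpace V] [DiscreteTopology V] [TopologicalSpace F] [DiscreteTopology F]
  [MeasurableSpace V] [BorelSpace V] [MeasurableSpace F] [BorelSpace F]

lemma example_of_form (n : ℕ) (hn : 0 < n) (hF : Fintype.card F = n) (hV : Fintype.card V = n ^ 2)
    (b : V →+ V →+ F) (hb : ∀ v, b v v = 0 → v = 0) (c : ℝ) (hc0 : 0 ≤ c) (hcn : c ≤ 1 / n) :
    ∃ (μ : Measure ((ℕ → V × UnitAddCircle) × (F × UnitAddCircle)))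
      (T : ℕ → ℕ → (ℕ → V × UnitAddCircle) × (F × UnitAddCircle) →
        (ℕ → V × UnitAddCircle) × (F × UnitAddCircle))
      (A : Set ((ℕ → V × UnitAddCircle) × (F × UnitAddCircle))),
      IsProbabilityMeasure μ ∧
      (∀ i j, MeasurePreserving (T i j) μ μ) ∧ (∀ i j, Function.Bijective (T i j)) ∧
      (∀ i j k l, T i j ∘ T k l = T k l ∘ T i j) ∧
      MeasurableSet A ∧ μ.real A = c ∧
      ∀ γ : Finset ℕ, γ.Nonempty →
        μ.real (A ∩
          (List.foldr
            (fun (i : ℕ) (f : (ℕ → V × UnitAddCircle) × (F × UnitAddCircle) →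
                (ℕ → V × UnitAddCircle) × (F × UnitAddCircle)) =>
              (List.foldr (fun (j : ℕ) (g : (ℕ → V × UnitAddCircle) × (F × UnitAddCircle) →
                (ℕ → V × UnitAddCircle) × (F × UnitAddCircle)) => T i j ∘ g)
                (id : (ℕ → V × UnitAddCircle) × (F × UnitAddCircle) →
                (ℕ → V × UnitAddCircle) × (F × UnitAddCircle)) γ.toList) ∘ f)
            (id : (ℕ → V × UnitAddCircle) × (F × UnitAddCircle) →
                (ℕ → V × UnitAddCircle) × (F × UnitAddCircle)) γ.toList) ⁻¹' A) = c ^ 2 / n ∧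
        μ.real (Aᶜ ∩
          (List.foldr
            (fun (i : ℕ) (f : (ℕ → V × UnitAddCircle) × (F × UnitAddCircle) →
                (ℕ → V × UnitAddCircle) × (F × UnitAddCircle)) =>
              (List.foldr (fun (j : ℕ) (g : (ℕ → V × UnitAddCircle) × (F × UnitAddCircle) →
                (ℕ → V × UnitAddCircle) × (F × UnitAddCircle)) => T i j ∘ g)
                (id : (ℕ → V × UnitAddCircle) × (F × UnitAddCircle) →
                (ℕ → V × UnitAddCircle) × (F × UnitAddCircle)) γ.toList) ∘ f)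
            (id : (ℕ → V × UnitAddCircle) × (F × UnitAddCircle) →
                (ℕ → V × UnitAddCircle) × (F × UnitAddCircle)) γ.toList) ⁻¹' Aᶜ) =
          (1 - c) ^ 2 - (1 - 1 / (n : ℝ)) * c ^ 2 := by
  have hn' : (0 : ℝ) < n := by exact_mod_cast hn
  have hI : MeasurableSet (Metric.closedBall (0 : UnitAddCircle) (n * c / 2)) :=
    measurableSet_closedBall
  have hvol : (volume (Metric.closedBall (0 : UnitAddCircle) (n * c / 2))).toReal = n * c := by
    rw [AddCircle.volume_closedBall]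
    have h1 : (n : ℝ) * c ≤ 1 := by
      rw [le_div_iff₀ hn'] at hcn
      linarith
    rw [ENNReal.toReal_ofReal (by positivity)]
    rw [min_eq_right (by linarith)]
    ring
  have hB : MeasurableSet (Bset F (Metric.closedBall (0 : UnitAddCircle) (n * c / 2))) :=
    (measurableSet_singleton _).prod hI
  have hA : ((muE (V × UnitAddCircle)).prod ((haar1 F).prod volume)).real
      (univ ×ˢ Bset F (Metric.closedBall (0 : UnitAddCircle) (n * c / 2))) = c := by
    rw [Measure.real, Measure.prod_prod, measure_univ, one_mul, Bset, Measure.prod_prod,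
      ENNReal.toReal_mul, hvol]
    have h1 := haar1_zero_real F
    rw [Measure.real, hF] at h1
    rw [h1]
    field_simp
  refine ⟨(muE (V × UnitAddCircle)).prod ((haar1 F).prod volume), fun i j => tr (q b i j),
    univ ×ˢ Bset F (Metric.closedBall (0 : UnitAddCircle) (n * c / 2)), inferInstance,
    fun i j => tr_mp _ _ (measurable_q b i j), ?_, fun i j k l => tr_comm _ _,
    MeasurableSet.univ.prod hB, ?_, ?_⟩
  · intro i j
    refine Function.bijective_iff_has_inverse.2 ⟨tr (fun e => - q b i j e), ?_, ?_⟩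
    · intro p
      simp [tr]
    · intro p
      simp [tr]
  · exact hA
  · intro γ hγ
    have hr : ((muE (V × UnitAddCircle)).prod ((haar1 F).prod volume)).real
        ((univ ×ˢ Bset F (Metric.closedBall (0 : UnitAddCircle) (n * c / 2))) ∩
          (tr (fun e => ∑ i ∈ γ, ∑ j ∈ γ, q b i j e)) ⁻¹'
            (univ ×ˢ Bset F (Metric.closedBall (0 : UnitAddCircle) (n * c / 2)))) =
        c ^ 2 / n := by
      rw [Measure.real,
        ret ((haar1 V).prod volume) ((haar1 F).prod volume) (Phi b) (measurable_Phi b) _ γ hγ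
          (q_sum b γ) _ hB, prod_ret b hb _ hI]
      have h1 := haar1_zero_real F
      have h2 := haar1_zero_real V
      rw [Measure.real, hF] at h1
      rw [Measure.real, hV] at h2
      rw [ENNReal.toReal_mul, ENNReal.toReal_mul, ENNReal.toReal_mul, hvol, h1, h2]
      push_cast
      field_simp
    have hm : Measurable (fun e : ℕ → V × UnitAddCircle => ∑ i ∈ γ, ∑ j ∈ γ, q b i j e) :=
      Finset.measurable_fun_sum _ fun i _ => Finset.measurable_fun_sum _ fun j _ =>
        measurable_q b i j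
    rw [foldr_foldr (fun i j => q b i j) γ]
    refine ⟨hr, ?_⟩
    rw [compl_ret _ _ (tr_mp _ _ hm) _ (MeasurableSet.univ.prod hB), hr, hA]
    field_simp
    ring

end fin2

theorem main (n : ℕ) (hn : 0 < n) (c : ℝ) (hc0 : 0 ≤ c) (hcn : c ≤ 1 / n) :
    ∃ (X : Type) (_ : MeasurableSpace X) (μ : Measure X) (T : ℕ → ℕ → X → X) (A : Set X),
      IsProbabilityMeasure μ ∧
      (∀ i j, MeasurePreserving (T i j) μ μ) ∧ (∀ i j, Function.Bijective (T i j)) ∧
      (∀ i j k l, T i j ∘ T k l = T k l ∘ T i j) ∧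
      MeasurableSet A ∧ μ.real A = c ∧
      ∀ γ : Finset ℕ, γ.Nonempty →
        μ.real (A ∩
          (List.foldr
            (fun (i : ℕ) (f : X → X) =>
              (List.foldr (fun (j : ℕ) (g : X → X) => T i j ∘ g) (id : X → X) γ.toList) ∘ f)
            (id : X → X) γ.toList) ⁻¹' A) = c ^ 2 / n ∧
        μ.real (Aᶜ ∩
          (List.foldr
            (fun (i : ℕ) (f : X → X) =>
              (List.foldr (fun (j : ℕ) (g : X → X) => T i j ∘ g) (id : X → X) γ.toList) ∘ f)
            (id : X → X) γ.toList) ⁻¹' Aᶜ) = (1 - c) ^ 2 - (1 - 1 / (n : ℝ)) * c ^ 2 := by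
  obtain ⟨V, F, iV, iF, fV, fF, b, hF, hV, hb⟩ := aniso n hn
  let : TopologicalSpace V := ⊥
  let : TopologicalSpace F := ⊥
  have : DiscreteTopology V := ⟨rfl⟩
  have : DiscreteTopology F := ⟨rfl⟩
  let : MeasurableSpace V := borel V
  let : MeasurableSpace F := borel F
  have : BorelSpace V := ⟨rfl⟩
  have : BorelSpace F := ⟨rfl⟩
  obtain ⟨μ, T, A, h⟩ := example_of_form n hn hF hV b hb c hc0 hcn
  exact ⟨_, inferInstance, μ, T, A, h⟩

theorem main' (n : ℕ) (hn : 0 < n) (c : ℝ) (hc0 : 0 ≤ c) (hc1 : c ≤ 1)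
    (hcn : min c (1 - c) ≤ 1 / n) :
    ∃ (X : Type) (_ : MeasurableSpace X) (μ : Measure X) (T : ℕ → ℕ → X → X) (A : Set X),
      IsProbabilityMeasure μ ∧
      (∀ i j, MeasurePreserving (T i j) μ μ) ∧ (∀ i j, Function.Bijective (T i j)) ∧
      (∀ i j k l, T i j ∘ T k l = T k l ∘ T i j) ∧
      MeasurableSet A ∧ μ.real A = c ∧
      ∀ γ : Finset ℕ, γ.Nonempty →
        μ.real (A ∩
          (List.foldr
            (fun (i : ℕ) (f : X → X) =>
              (List.foldr (fun (j : ℕ) (g : X → X) => T i j ∘ g) (id : X → X) γ.toList) ∘ f)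
            (id : X → X) γ.toList) ⁻¹' A) = c ^ 2 - (1 - 1 / (n : ℝ)) * min c (1 - c) ^ 2 := by
  rcases le_total c (1 - c) with h | h
  · rw [min_eq_left h] at hcn ⊢
    obtain ⟨X, mX, μ, T, A, h1, h2, h3, h4, h5, h6, h7⟩ := main n hn c hc0 hcn
    refine ⟨X, mX, μ, T, A, h1, h2, h3, h4, h5, h6, fun γ hγ => ?_⟩
    rw [(h7 γ hγ).1]
    ring
  · rw [min_eq_right h] at hcn ⊢
    obtain ⟨X, mX, μ, T, A, h1, h2, h3, h4, h5, h6, h7⟩ := main n hn (1 - c) (by linarith) hcn
    refine ⟨X, mX, μ, T, Aᶜ, h1, h2, h3, h4, h5.compl, ?_, fun γ hγ => ?_⟩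
    · rw [probReal_compl_eq_one_sub h5, h6]
      ring
    · rw [(h7 γ hγ).2]
      ring

end Pool.Agent.Lib.MP_018e2a_an.KF
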