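import Mathlib
import Pool.Agent.Lib.MP_018e2a_an.KF.Main
import Pool.Agent.Lib.MP_018e2a_an.KF.Herm

/-!
# `T_{γ × γ}`: sets without differences `b(v,v)` give small returns
-/

set_option autoImplicit false

open MeasureTheory Set

namespace Pool.Agent.Lib.MP_018e2a_an.KF

/-- There are groups of order `v` and `f`, a biadditive form `b` and a set of `s` elements without
differences `b u u`, `u ≠ 0`. -/
def Sys (v f s : ℕ) : Prop :=
  ∃ (V F : Type) (_ : AddCommGroup V) (_ : AddCommGroup F) (_ : Fintype V) (_ : Fintype F)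
    (b : V →+ V →+ F) (S : Finset F), Fintype.card V = v ∧ Fintype.card F = f ∧ S.card = s ∧
      ∀ u : V, u ≠ 0 → ∀ x ∈ S, x + b u u ∉ S

lemma sys_aniso {n : ℕ} (h : Aniso n) : Sys (n ^ 2) n 1 := by
  obtain ⟨V, F, _, _, _, _, b, h1, h2, h3⟩ := h
  refine ⟨V, F, inferInstance, inferInstance, inferInstance, inferInstance, b, {0}, h2, h1,
    Finset.card_singleton _, ?_⟩
  intro u hu x hx hx'
  rw [Finset.mem_singleton] at hx hx'
  rw [hx, zero_add] at hx'
  exact hu (h3 u hx')

lemma sys_herm : Sys 64 512 120 :=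
  ⟨XG 6, XG 9, inferInstance, inferInstance, inferInstance, inferInstance, form, bset,
    XG.card, XG.card, bset_card, bset_free⟩

lemma sys_mul {v f s v' f' s' : ℕ} (h : Sys v f s) (h' : Sys v' f' s') :
    Sys (v * v') (f * f') (s * s') := by
  obtain ⟨V, F, _, _, _, _, b, S, h1, h2, h3, h4⟩ := h
  obtain ⟨V', F', _, _, _, _, b', S', h1', h2', h3', h4'⟩ := h'
  refine ⟨V × V', F × F', inferInstance, inferInstance, inferInstance, inferInstance,
    AddMonoidHom.mk' (fun v => AddMonoidHom.mk' (fun w => (b v.1 w.1, b' v.2 w.2))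
      (by intro x y; simp)) (by intro x y; ext w <;> simp), S ×ˢ S', ?_, ?_, ?_, ?_⟩
  · rw [Fintype.card_prod, h1, h1']
  · rw [Fintype.card_prod, h2, h2']
  · rw [Finset.card_product, h3, h3']
  · rintro ⟨u, u'⟩ hu ⟨x, x'⟩ hx hx'
    obtain ⟨ha, ha'⟩ := Finset.mem_product.1 hx
    have hx2 : (x + b u u, x' + b' u' u') ∈ S ×ˢ S' := hx'
    obtain ⟨hb, hb'⟩ := Finset.mem_product.1 hx2
    by_cases hu0 : u = 0
    · by_cases hu0' : u' = 0
      · exact hu (by rw [hu0, hu0']; rfl)
      · exact h4' u' hu0' x' ha' hb'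
    · exact h4 u hu0 x ha hb

lemma sys_pow (k : ℕ) : Sys (64 ^ k) (512 ^ k) (120 ^ k) := by
  induction k with
  | zero =>
    simp only [pow_zero]
    have h := sys_aniso aniso_one
    simpa using h
  | succ k ih =>
    rw [pow_succ, pow_succ, pow_succ]
    exact sys_mul ih sys_herm

section ret

variable {V F : Type} [AddCommGroup V] [AddCommGroup F] [Finite V] [Finite F]
  [TopologicalSpace V] [DiscreteTopology V] [TopologicalSpace F] [DiscreteTopology F]
  [MeasurableSpace V] [BorelSpace V] [MeasurableSpace F] [BorelSpace F]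

lemma prod_ret' (b : V →+ V →+ F) (S : Set F) (hb : ∀ v, v ≠ 0 → ∀ x ∈ S, x + b v v ∉ S)
    (I : Set UnitAddCircle) (hI : MeasurableSet I) :
    (((haar1 V).prod (volume : Measure UnitAddCircle)).prod
      ((haar1 F).prod (volume : Measure UnitAddCircle)))
      {p | p.2 ∈ S ×ˢ I ∧ p.2 + Phi b p.1 ∈ S ×ˢ I} =
    haar1 V {0} * haar1 F S * (volume I * volume I) := by
  have hSm : MeasurableSet S := S.toFinite.measurableSet
  have hB : MeasurableSet (S ×ˢ I) := hSm.prod hI
  have hS : MeasurableSet {p : (V × UnitAddCircle) × (F × UnitAddCircle) |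
      p.2 ∈ S ×ˢ I ∧ p.2 + Phi b p.1 ∈ S ×ˢ I} :=
    (measurable_snd hB).inter ((measurable_snd.add ((measurable_Phi b).comp measurable_fst)) hB)
  rw [Measure.prod_apply hS]
  have h1 : ∀ w : V × UnitAddCircle, ((haar1 F).prod (volume : Measure UnitAddCircle))
      (Prod.mk w ⁻¹' {p : (V × UnitAddCircle) × (F × UnitAddCircle) |
        p.2 ∈ S ×ˢ I ∧ p.2 + Phi b p.1 ∈ S ×ˢ I}) =
      (({0} : Set V).indicator (fun _ => haar1 F S) w.1) *
        volume {u : UnitAddCircle | u ∈ I ∧ u + w.2 ∈ I} := by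
    intro w
    by_cases hw : w.1 = 0
    · have h2 : (Prod.mk w ⁻¹' {p : (V × UnitAddCircle) × (F × UnitAddCircle) |
        p.2 ∈ S ×ˢ I ∧ p.2 + Phi b p.1 ∈ S ×ˢ I}) =
          S ×ˢ {u : UnitAddCircle | u ∈ I ∧ u + w.2 ∈ I} := by
        ext ⟨x, u⟩
        have h3 : b w.1 w.1 = 0 := by rw [hw, map_zero]
        simp only [mem_preimage, mem_ofPred_eq, mem_prod, Phi,
          Prod.mk_add_mk, h3, add_zero]
        tauto
      rw [h2, Measure.prod_prod, indicator_of_mem (by simpa using hw)]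
    · have h2 : (Prod.mk w ⁻¹' {p : (V × UnitAddCircle) × (F × UnitAddCircle) |
        p.2 ∈ S ×ˢ I ∧ p.2 + Phi b p.1 ∈ S ×ˢ I}) = ∅ := by
        ext ⟨x, u⟩
        simp only [mem_preimage, mem_ofPred_eq, mem_prod, Phi,
          Prod.mk_add_mk, mem_empty_iff_false, iff_false, not_and]
        rintro ⟨hx, _⟩ h4
        exact absurd h4 (hb w.1 hw x hx)
      rw [h2, measure_empty, indicator_of_notMem (by simpa using hw), zero_mul]
  simp_rw [h1]
  have hg : Measurable (fun m : UnitAddCircle =>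
      volume {u : UnitAddCircle | u ∈ I ∧ u + m ∈ I}) := by
    have hS' : MeasurableSet {p : UnitAddCircle × UnitAddCircle | p.2 ∈ I ∧ p.2 + p.1 ∈ I} :=
      (measurable_snd hI).inter ((measurable_snd.add measurable_fst) hI)
    exact measurable_measure_prodMk_left hS'
  rw [lintegral_prod_mul ((measurable_const.indicator (measurableSet_singleton _)).aemeasurable)
    hg.aemeasurable, circle_ret I hI, lintegral_indicator (measurableSet_singleton _)]
  simp [mul_comm]

end ret

section fin2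

variable {V F : Type} [AddCommGroup V] [AddCommGroup F] [Fintype V] [Fintype F]
  [TopologicalSpace V] [DiscreteTopology V] [TopologicalSpace F] [DiscreteTopology F]
  [MeasurableSpace V] [BorelSpace V] [MeasurableSpace F] [BorelSpace F]

lemma haar1_finset (S : Finset F) :
    (haar1 F).real (S : Set F) = (S.card : ℝ) / (Fintype.card F : ℝ) := by
  have h1 : ∑ g ∈ S, haar1 F {g} = haar1 F (S : Set F) := sum_measure_singleton
  have h2 := haar1_zero_real F
  rw [Measure.real, ← h1, Finset.sum_congr rfl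
    (fun g _ => Measure.addHaar_singleton (haar1 F) g), Finset.sum_const, nsmul_eq_mul,
    ENNReal.toReal_mul, ENNReal.toReal_natCast]
  rw [Measure.real] at h2
  rw [h2]
  ring

lemma example_of_sys {v f s : ℕ} (hs : 0 < s) (hV : Fintype.card V = v) (hF : Fintype.card F = f)
    (b : V →+ V →+ F) (S : Finset F) (hS : S.card = s)
    (hb : ∀ u, u ≠ 0 → ∀ x ∈ S, x + b u u ∉ S) (c : ℝ) (hc0 : 0 ≤ c)
    (hcn : c ≤ (s : ℝ) / f) :
    ∃ (μ : Measure ((ℕ → V × UnitAddCircle) × (F × UnitAddCircle)))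
      (T : ℕ → ℕ → (ℕ → V × UnitAddCircle) × (F × UnitAddCircle) →
        (ℕ → V × UnitAddCircle) × (F × UnitAddCircle))
      (A : Set ((ℕ → V × UnitAddCircle) × (F × UnitAddCircle))),
      IsProbabilityMeasure μ ∧
      (∀ i j, MeasurePreserving (T i j) μ μ) ∧ (∀ i j, Function.Bijective (T i j)) ∧
      (∀ i j k l, T i j ∘ T k l = T k l ∘ T i j) ∧
      MeasurableSet A ∧ μ.real A = c ∧
      ∀ γ : Finset ℕ, γ.Nonempty →
        μ.real (A ∩
          (List.foldr
            (fun (i : ℕ) (f : (ℕ → V × UnitAddCircle) × (F × UnitAddCircle) →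
                (ℕ → V × UnitAddCircle) × (F × UnitAddCircle)) =>
              (List.foldr (fun (j : ℕ) (g : (ℕ → V × UnitAddCircle) × (F × UnitAddCircle) →
                (ℕ → V × UnitAddCircle) × (F × UnitAddCircle)) => T i j ∘ g)
                (id : (ℕ → V × UnitAddCircle) × (F × UnitAddCircle) →
                (ℕ → V × UnitAddCircle) × (F × UnitAddCircle)) γ.toList) ∘ f)
            (id : (ℕ → V × UnitAddCircle) × (F × UnitAddCircle) →
                (ℕ → V × UnitAddCircle) × (F × UnitAddCircle)) γ.toList) ⁻¹' A) =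
          ((f : ℝ) / (v * s)) * c ^ 2 ∧
        μ.real (Aᶜ ∩
          (List.foldr
            (fun (i : ℕ) (f : (ℕ → V × UnitAddCircle) × (F × UnitAddCircle) →
                (ℕ → V × UnitAddCircle) × (F × UnitAddCircle)) =>
              (List.foldr (fun (j : ℕ) (g : (ℕ → V × UnitAddCircle) × (F × UnitAddCircle) →
                (ℕ → V × UnitAddCircle) × (F × UnitAddCircle)) => T i j ∘ g)
                (id : (ℕ → V × UnitAddCircle) × (F × UnitAddCircle) →
                (ℕ → V × UnitAddCircle) × (F × UnitAddCircle)) γ.toList) ∘ f)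
            (id : (ℕ → V × UnitAddCircle) × (F × UnitAddCircle) →
                (ℕ → V × UnitAddCircle) × (F × UnitAddCircle)) γ.toList) ⁻¹' Aᶜ) =
          (1 - c) ^ 2 - (1 - (f : ℝ) / (v * s)) * c ^ 2 := by
  have hs' : (0 : ℝ) < s := by exact_mod_cast hs
  have hf' : (0 : ℝ) < f := by
    rw [← hF]
    exact_mod_cast Fintype.card_pos
  have hv' : (0 : ℝ) < v := by
    rw [← hV]
    exact_mod_cast Fintype.card_pos
  obtain ⟨r, hr⟩ : ∃ r : ℝ, r = f * c / s := ⟨_, rfl⟩
  have hr0 : 0 ≤ r := by rw [hr]; positivity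
  have hr1 : r ≤ 1 := by
    rw [hr, div_le_one hs']
    rw [le_div_iff₀ hf'] at hcn
    linarith
  have hI : MeasurableSet (Metric.closedBall (0 : UnitAddCircle) (r / 2)) :=
    measurableSet_closedBall
  have hvol : (volume (Metric.closedBall (0 : UnitAddCircle) (r / 2))).toReal = r := by
    rw [AddCircle.volume_closedBall]
    rw [ENNReal.toReal_ofReal (by positivity)]
    rw [min_eq_right (by linarith)]
    ring
  have hSm : MeasurableSet (S : Set F) := (S : Set F).toFinite.measurableSet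
  have hB : MeasurableSet ((S : Set F) ×ˢ (Metric.closedBall (0 : UnitAddCircle) (r / 2))) :=
    hSm.prod hI
  have hA : ((muE (V × UnitAddCircle)).prod ((haar1 F).prod volume)).real
      (univ ×ˢ ((S : Set F) ×ˢ (Metric.closedBall (0 : UnitAddCircle) (r / 2)))) = c := by
    rw [Measure.real, Measure.prod_prod, measure_univ, one_mul, Measure.prod_prod,
      ENNReal.toReal_mul, hvol]
    have h1 := haar1_finset S
    rw [Measure.real, hF, hS] at h1
    rw [h1, hr]
    field_simp
  refine ⟨(muE (V × UnitAddCircle)).prod ((haar1 F).prod volume), fun i j => tr (q b i j),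
    univ ×ˢ ((S : Set F) ×ˢ (Metric.closedBall (0 : UnitAddCircle) (r / 2))), inferInstance,
    fun i j => tr_mp _ _ (measurable_q b i j), ?_, fun i j k l => tr_comm _ _,
    MeasurableSet.univ.prod hB, ?_, ?_⟩
  · intro i j
    refine Function.bijective_iff_has_inverse.2 ⟨tr (fun e => - q b i j e), ?_, ?_⟩
    · intro p
      simp [tr]
    · intro p
      simp [tr]
  · exact hA
  · intro γ hγ
    have hret : ((muE (V × UnitAddCircle)).prod ((haar1 F).prod volume)).real
        ((univ ×ˢ ((S : Set F) ×ˢ (Metric.closedBall (0 : UnitAddCircle) (r / 2)))) ∩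
          (tr (fun e => ∑ i ∈ γ, ∑ j ∈ γ, q b i j e)) ⁻¹'
            (univ ×ˢ ((S : Set F) ×ˢ (Metric.closedBall (0 : UnitAddCircle) (r / 2))))) =
        ((f : ℝ) / (v * s)) * c ^ 2 := by
      rw [Measure.real,
        ret ((haar1 V).prod volume) ((haar1 F).prod volume) (Phi b) (measurable_Phi b) _ γ hγ
          (q_sum b γ) _ hB, prod_ret' b (S : Set F) (fun u hu x hx => hb u hu x hx) _ hI]
      have h1 := haar1_finset S
      have h2 := haar1_zero_real V
      rw [Measure.real, hF, hS] at h1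
      rw [Measure.real, hV] at h2
      rw [ENNReal.toReal_mul, ENNReal.toReal_mul, ENNReal.toReal_mul, hvol, h1, h2, hr]
      field_simp
    have hm : Measurable (fun e : ℕ → V × UnitAddCircle => ∑ i ∈ γ, ∑ j ∈ γ, q b i j e) :=
      Finset.measurable_fun_sum _ fun i _ => Finset.measurable_fun_sum _ fun j _ =>
        measurable_q b i j
    rw [foldr_foldr (fun i j => q b i j) γ]
    refine ⟨hret, ?_⟩
    rw [compl_ret _ _ (tr_mp _ _ hm) _ (MeasurableSet.univ.prod hB), hret, hA]
    ring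

end fin2

theorem mainS {v f s : ℕ} (h : Sys v f s) (hs : 0 < s) (c : ℝ) (hc0 : 0 ≤ c)
    (hcn : c ≤ (s : ℝ) / f) :
    ∃ (X : Type) (_ : MeasurableSpace X) (μ : Measure X) (T : ℕ → ℕ → X → X) (A : Set X),
      IsProbabilityMeasure μ ∧
      (∀ i j, MeasurePreserving (T i j) μ μ) ∧ (∀ i j, Function.Bijective (T i j)) ∧
      (∀ i j k l, T i j ∘ T k l = T k l ∘ T i j) ∧
      MeasurableSet A ∧ μ.real A = c ∧
      ∀ γ : Finset ℕ, γ.Nonempty →
        μ.real (A ∩
          (List.foldr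
            (fun (i : ℕ) (f : X → X) =>
              (List.foldr (fun (j : ℕ) (g : X → X) => T i j ∘ g) (id : X → X) γ.toList) ∘ f)
            (id : X → X) γ.toList) ⁻¹' A) = ((f : ℝ) / (v * s)) * c ^ 2 ∧
        μ.real (Aᶜ ∩
          (List.foldr
            (fun (i : ℕ) (f : X → X) =>
              (List.foldr (fun (j : ℕ) (g : X → X) => T i j ∘ g) (id : X → X) γ.toList) ∘ f)
            (id : X → X) γ.toList) ⁻¹' Aᶜ) =
          (1 - c) ^ 2 - (1 - (f : ℝ) / (v * s)) * c ^ 2 := by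
  obtain ⟨V, F, iV, iF, fV, fF, b, S, hV, hF, hS, hb⟩ := h
  let : TopologicalSpace V := ⊥
  let : TopologicalSpace F := ⊥
  have : DiscreteTopology V := ⟨rfl⟩
  have : DiscreteTopology F := ⟨rfl⟩
  let : MeasurableSpace V := borel V
  let : MeasurableSpace F := borel F
  have : BorelSpace V := ⟨rfl⟩
  have : BorelSpace F := ⟨rfl⟩
  obtain ⟨μ, T, A, h⟩ := example_of_sys hs hV hF b S hS hb c hc0 hcn
  exact ⟨_, inferInstance, μ, T, A, h⟩

theorem mainT (n k : ℕ) (hn : 0 < n) (c : ℝ) (hc0 : 0 ≤ c) (hc1 : c ≤ 1)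
    (hcn : min c (1 - c) ≤ (15 / 64) ^ k / n) :
    ∃ (X : Type) (_ : MeasurableSpace X) (μ : Measure X) (T : ℕ → ℕ → X → X) (A : Set X),
      IsProbabilityMeasure μ ∧
      (∀ i j, MeasurePreserving (T i j) μ μ) ∧ (∀ i j, Function.Bijective (T i j)) ∧
      (∀ i j k l, T i j ∘ T k l = T k l ∘ T i j) ∧
      MeasurableSet A ∧ μ.real A = c ∧
      ∀ γ : Finset ℕ, γ.Nonempty →
        μ.real (A ∩
          (List.foldr
            (fun (i : ℕ) (f : X → X) =>
              (List.foldr (fun (j : ℕ) (g : X → X) => T i j ∘ g) (id : X → X) γ.toList) ∘ f)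
            (id : X → X) γ.toList) ⁻¹' A) =
          c ^ 2 - (1 - 1 / (15 ^ k * (n : ℝ))) * min c (1 - c) ^ 2 := by
  have hsys := sys_mul (sys_aniso (aniso n hn)) (sys_pow k)
  have hn' : (0 : ℝ) < n := by exact_mod_cast hn
  have hs : 0 < 1 * 120 ^ k := by positivity
  have e1 : ((1 * 120 ^ k : ℕ) : ℝ) / ((n * 512 ^ k : ℕ) : ℝ) = (15 / 64) ^ k / n := by
    push_cast
    rw [div_pow, show (120 : ℝ) = 15 * 8 by norm_num, show (512 : ℝ) = 64 * 8 by norm_num,
      mul_pow, mul_pow]
    field_simp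
  have e2 : ((n * 512 ^ k : ℕ) : ℝ) / (((n ^ 2 * 64 ^ k : ℕ) : ℝ) * ((1 * 120 ^ k : ℕ) : ℝ)) =
      1 / (15 ^ k * n) := by
    push_cast
    rw [show (120 : ℝ) = 15 * 8 by norm_num, show (512 : ℝ) = 64 * 8 by norm_num,
      mul_pow, mul_pow]
    field_simp
  rcases le_total c (1 - c) with h | h
  · rw [min_eq_left h] at hcn ⊢
    obtain ⟨X, mX, μ, T, A, h1, h2, h3, h4, h5, h6, h7⟩ :=
      mainS hsys hs c hc0 (by rw [e1]; exact hcn)
    refine ⟨X, mX, μ, T, A, h1, h2, h3, h4, h5, h6, fun γ hγ => ?_⟩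
    rw [(h7 γ hγ).1, e2]
    ring
  · rw [min_eq_right h] at hcn ⊢
    obtain ⟨X, mX, μ, T, A, h1, h2, h3, h4, h5, h6, h7⟩ :=
      mainS hsys hs (1 - c) (by linarith) (by rw [e1]; exact hcn)
    refine ⟨X, mX, μ, T, Aᶜ, h1, h2, h3, h4, h5.compl, ?_, fun γ hγ => ?_⟩
    · rw [probReal_compl_eq_one_sub h5, h6]
      ring
    · rw [(h7 γ hγ).2, e2]
      ring

end Pool.Agent.Lib.MP_018e2a_an.KF
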